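import Mathlib

/-!
# A contraction lemma over complete nonarchimedean fields
-/

set_option autoImplicit false

namespace Pool.Agent.H16.LF

open Polynomial

variable {k : Type*} [NormedField k] [IsUltrametricDist k]

lemma nadd (x y : k) : ‖x + y‖ ≤ max ‖x‖ ‖y‖ := IsUltrametricDist.norm_add_le_max x y

lemma nsub (x y : k) : ‖x - y‖ ≤ max ‖x‖ ‖y‖ := by
  rw [sub_eq_add_neg]
  exact (nadd x (-y)).trans (by rw [norm_neg])

/-- the polynomials with coefficients of absolute value at most one -/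
def Integral (G : k[X]) : Prop := ∀ i, ‖G.coeff i‖ ≤ 1

lemma nsum {ι : Type*} (s : Finset ι) (f : ι → k) {r : ℝ} (hr : 0 ≤ r) (h : ∀ i ∈ s, ‖f i‖ ≤ r) :
    ‖∑ i ∈ s, f i‖ ≤ r := by
  classical
  induction s using Finset.induction_on with
  | empty => simpa using hr
  | insert a s ha ih =>
    rw [Finset.sum_insert ha]
    exact (nadd _ _).trans (max_le (h a (Finset.mem_insert_self _ _))
      (ih fun i hi => h i (Finset.mem_insert_of_mem hi)))

lemma pow_sub_pow_le {x y : k} (hx : ‖x‖ ≤ 1) (hy : ‖y‖ ≤ 1) (i : ℕ) :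
    ‖x ^ i - y ^ i‖ ≤ ‖x - y‖ := by
  rw [← (Commute.all x y).geom_sum₂_mul, norm_mul]
  have : ‖∑ j ∈ Finset.range i, x ^ j * y ^ (i - 1 - j)‖ ≤ 1 := by
    refine nsum _ _ zero_le_one fun j _ => ?_
    rw [norm_mul, norm_pow, norm_pow]
    exact mul_le_one₀ (pow_le_one₀ (norm_nonneg _) hx) (pow_nonneg (norm_nonneg _) _)
      (pow_le_one₀ (norm_nonneg _) hy)
  calc _ ≤ 1 * ‖x - y‖ := by gcongr
    _ = _ := one_mul _

lemma eval_sub_le {G : k[X]} (hG : Integral G) {x y : k} (hx : ‖x‖ ≤ 1) (hy : ‖y‖ ≤ 1) :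
    ‖G.eval x - G.eval y‖ ≤ ‖x - y‖ := by
  rw [eval_eq_sum_range, eval_eq_sum_range, ← Finset.sum_sub_distrib]
  refine nsum _ _ (norm_nonneg _) fun i _ => ?_
  rw [← mul_sub, norm_mul]
  calc _ ≤ 1 * ‖x - y‖ := by
        gcongr
        · exact hG i
        · exact pow_sub_pow_le hx hy i
    _ = _ := one_mul _

lemma Integral.derivative {G : k[X]} (hG : Integral G) : Integral (Polynomial.derivative G) := by
  intro i
  rw [coeff_derivative, norm_mul]
  refine mul_le_one₀ (hG _) (norm_nonneg _) ?_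
  have : ((i : k) + 1) = ((i + 1 : ℕ) : k) := by push_cast; ring
  rw [this]
  exact IsUltrametricDist.norm_natCast_le_one k (i + 1)

/-- the second order Taylor estimate for monomials -/
lemma pow_taylor {x y s : k} {r : ℝ} (hx : ‖x‖ ≤ 1) (hy : ‖y‖ ≤ 1) (hs : ‖s‖ ≤ 1)
    (hxs : ‖x - s‖ ≤ r) (hys : ‖y - s‖ ≤ r) (i : ℕ) :
    ‖x ^ i - y ^ i - (x - y) * (i * s ^ (i - 1))‖ ≤ r * ‖x - y‖ := by
  have e : x ^ i - y ^ i - (x - y) * (i * s ^ (i - 1)) =
      (∑ j ∈ Finset.range i, (x ^ j * y ^ (i - 1 - j) - s ^ j * s ^ (i - 1 - j))) * (x - y) := by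
    rw [Finset.sum_sub_distrib]
    have e1 := (Commute.all x y).geom_sum₂_mul i
    have : ∑ j ∈ Finset.range i, s ^ j * s ^ (i - 1 - j) = i * s ^ (i - 1) := by
      rw [Finset.sum_congr rfl (g := fun _ => s ^ (i - 1))]
      · rw [Finset.sum_const, Finset.card_range, nsmul_eq_mul]
      · intro j hj
        rw [Finset.mem_range] at hj
        rw [← pow_add]; congr 1; omega
    rw [this]
    linear_combination -e1
  have hr : 0 ≤ r := (norm_nonneg _).trans hxs
  rw [e, norm_mul]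
  refine mul_le_mul_of_nonneg_right (nsum _ _ hr fun j _ => ?_) (norm_nonneg _)
  have e2 : x ^ j * y ^ (i - 1 - j) - s ^ j * s ^ (i - 1 - j) =
      (x ^ j - s ^ j) * y ^ (i - 1 - j) + s ^ j * (y ^ (i - 1 - j) - s ^ (i - 1 - j)) := by ring
  rw [e2]
  refine (nadd _ _).trans (max_le ?_ ?_)
  · rw [norm_mul, norm_pow y]
    calc _ ≤ r * 1 := by
          gcongr
          · exact (pow_sub_pow_le hx hs j).trans hxs
          · exact pow_le_one₀ (norm_nonneg _) hy
      _ = r := mul_one r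
  · rw [norm_mul, norm_pow s]
    calc _ ≤ 1 * r := by
          gcongr
          · exact pow_le_one₀ (norm_nonneg _) hs
          · exact (pow_sub_pow_le hy hs _).trans hys
      _ = r := one_mul r

lemma eval_taylor {G : k[X]} (hG : Integral G) {x y s : k} {r : ℝ} (hx : ‖x‖ ≤ 1) (hy : ‖y‖ ≤ 1)
    (hs : ‖s‖ ≤ 1) (hxs : ‖x - s‖ ≤ r) (hys : ‖y - s‖ ≤ r) :
    ‖G.eval x - G.eval y - (x - y) * (Polynomial.derivative G).eval s‖ ≤ r * ‖x - y‖ := by
  have hr : 0 ≤ r := (norm_nonneg _).trans hxs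
  have e : G.eval x - G.eval y - (x - y) * (Polynomial.derivative G).eval s =
      ∑ i ∈ Finset.range (G.natDegree + 1),
        G.coeff i * (x ^ i - y ^ i - (x - y) * (i * s ^ (i - 1))) := by
    rw [eval_eq_sum_range, eval_eq_sum_range, derivative_eval, sum_over_range, Finset.mul_sum,
      ← Finset.sum_sub_distrib, ← Finset.sum_sub_distrib]
    · exact Finset.sum_congr rfl fun i _ => by ring
    · intro n; simp
  rw [e]
  refine nsum _ _ (by positivity) fun i _ => ?_
  rw [norm_mul]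
  calc _ ≤ 1 * (r * ‖x - y‖) := by
        gcongr
        · exact hG i
        · exact pow_taylor hx hy hs hxs hys i
    _ = _ := one_mul _

variable [CompleteSpace k]

/-- **Contraction lemma.** -/
theorem exists_solution {ι : Type*} [Fintype ι] {G : k[X]} (hG : Integral G) (s : ι → k)
    (hs : ∀ t, ‖s t‖ ≤ 1) {lam η : ℝ} (hlam : 0 < lam) (hlam1 : lam ≤ 1)
    (hder : ∀ t, ‖(Polynomial.derivative G).eval (s t)‖ = lam) (hη : 0 ≤ η) (hηl : η < lam ^ 2)
    (P : (ι → k) → ι → k)
    (hP : ∀ y z : ι → k, ∀ r : ℝ, (∀ t, ‖y t - z t‖ ≤ r) → ∀ t, ‖P y t - P z t‖ ≤ η * r)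
    (h0 : ∀ t, ‖G.eval (s t) - P s t‖ ≤ η) :
    ∃ y : ι → k, (∀ t, ‖y t - s t‖ ≤ η / lam) ∧ ∀ t, G.eval (y t) = P y t := by
  classical
  set ρ : ℝ := η / lam with hρ
  have hρ0 : 0 ≤ ρ := by positivity
  have hρl : ρ < lam := by
    rw [hρ, div_lt_iff₀ hlam]; rw [pow_two] at hηl; exact hηl
  have hρ1 : ρ ≤ 1 := hρl.le.trans hlam1
  have hηρ : η = ρ * lam := by rw [hρ]; field_simp
  let S : Set (ι → k) := {y | ∀ t, ‖y t - s t‖ ≤ ρ}
  have hSc : IsClosed S := by
    have : S = ⋂ t, {y : ι → k | ‖y t - s t‖ ≤ ρ} := by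
      ext y; simp [S]
    rw [this]
    refine isClosed_iInter fun t => ?_
    exact isClosed_le (by fun_prop) continuous_const
  have hD : ∀ t, (Polynomial.derivative G).eval (s t) ≠ 0 := by
    intro t h
    have := hder t
    rw [h, norm_zero] at this
    exact hlam.ne this
  have hball : ∀ y ∈ S, ∀ t, ‖y t‖ ≤ 1 := by
    intro y hy t
    have : y t = (y t - s t) + s t := by ring
    rw [this]
    exact (nadd _ _).trans (max_le ((hy t).trans hρ1) (hs t))
  let T : (ι → k) → ι → k := fun y t =>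
    y t - (G.eval (y t) - P y t) / (Polynomial.derivative G).eval (s t)
  have hT : ∀ y ∈ S, ∀ z ∈ S, ∀ r : ℝ, (∀ t, ‖y t - z t‖ ≤ r) →
      ∀ t, ‖T y t - T z t‖ ≤ ρ / lam * r := by
    intro y hy z hz r hr t
    have hr0 : 0 ≤ r := (norm_nonneg _).trans (hr t)
    have e : T y t - T z t = -(G.eval (y t) - G.eval (z t) -
        (y t - z t) * (Polynomial.derivative G).eval (s t) - (P y t - P z t)) /
          (Polynomial.derivative G).eval (s t) := by
      simp only [T]
      field_simp [hD t]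
      ring
    rw [e, norm_div, norm_neg, hder, div_le_iff₀ hlam]
    have e2 : ρ / lam * r * lam = ρ * r := by field_simp
    rw [e2]
    refine (nsub _ _).trans (max_le ?_ ?_)
    · refine (eval_taylor hG (hball y hy t) (hball z hz t) (hs t) (hy t) (hz t)).trans ?_
      gcongr
      exact hr t
    · refine (hP y z r hr t).trans ?_
      gcongr
      rw [hηρ]
      calc ρ * lam ≤ ρ * 1 := by gcongr
        _ = ρ := mul_one _
  have hsS : s ∈ S := fun t => by simp [hρ0]
  have hTs : ∀ t, ‖T s t - s t‖ ≤ ρ := by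
    intro t
    have e : T s t - s t = -((G.eval (s t) - P s t) / (Polynomial.derivative G).eval (s t)) := by
      simp only [T]; ring
    rw [e, norm_neg, norm_div, hder, hρ]
    gcongr
    exact h0 t
  have hq1 : ρ / lam < 1 := (div_lt_one hlam).2 hρl
  have hmap : ∀ y ∈ S, T y ∈ S := by
    intro y hy t
    have e : T y t - s t = (T y t - T s t) + (T s t - s t) := by ring
    rw [e]
    refine (nadd _ _).trans (max_le ?_ (hTs t))
    refine (hT y hy s hsS ρ hy t).trans ?_
    calc ρ / lam * ρ ≤ 1 * ρ := by gcongr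
      _ = ρ := one_mul _
  let f : S → S := fun y => ⟨T y, hmap y y.2⟩
  have hcomplete : CompleteSpace S := hSc.completeSpace_coe
  have hne : Nonempty S := ⟨⟨s, hsS⟩⟩
  have hf : ContractingWith ⟨ρ / lam, by positivity⟩ f := by
    refine ⟨by exact_mod_cast hq1, ?_⟩
    refine LipschitzWith.of_dist_le_mul fun y z => ?_
    show dist (T y) (T z) ≤ ρ / lam * dist (y : ι → k) z
    refine (dist_pi_le_iff (by positivity)).2 fun t => ?_
    rw [dist_eq_norm]
    refine hT y y.2 z z.2 _ (fun t => ?_) t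
    rw [← dist_eq_norm]
    exact dist_le_pi_dist _ _ t
  have hfix : f (ContractingWith.fixedPoint f hf) = ContractingWith.fixedPoint f hf :=
    hf.fixedPoint_isFixedPt
  refine ⟨(ContractingWith.fixedPoint f hf : S), (ContractingWith.fixedPoint f hf).2, fun t => ?_⟩
  have h1 : T (ContractingWith.fixedPoint f hf : S) t = (ContractingWith.fixedPoint f hf : S).1 t :=
    congrFun (congrArg Subtype.val hfix) t
  simp only [T, sub_eq_self, div_eq_zero_iff, hD t, or_false] at h1
  exact sub_eq_zero.1 h1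

/-- Hensel's lemma for a simple root -/
theorem hensel {G : k[X]} (hG : Integral G) {s : k} (hs : ‖s‖ ≤ 1) (h0 : ‖G.eval s‖ < 1)
    (h1 : ‖(Polynomial.derivative G).eval s‖ = 1) : ∃ y : k, ‖y - s‖ < 1 ∧ G.eval y = 0 := by
  obtain ⟨y, hy, hy0⟩ := exists_solution (ι := Unit) hG (fun _ => s) (fun _ => hs) one_pos le_rfl
    (fun _ => h1) (norm_nonneg (G.eval s)) (by rw [one_pow]; exact h0) (fun _ _ => 0)
    (fun y z r hr t => by
      rw [sub_zero, norm_zero]
      exact mul_nonneg (norm_nonneg _) ((norm_nonneg _).trans (hr t)))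
    (fun _ => by rw [sub_zero])
  refine ⟨y (), ?_, hy0 ()⟩
  have := hy ()
  rw [div_one] at this
  exact lt_of_le_of_lt this h0

end Pool.Agent.H16.LF
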