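import Pool.Agent.H16.LF.Rigid
import Pool.Agent.H16.LF.L.HenonCount

/-!
# Horseshoes from roots of unity
-/

set_option autoImplicit false

namespace Pool.Agent.H16.LF

open Polynomial Pool.Agent.H504D Function

variable {k : Type} [NormedField k] [IsUltrametricDist k]

lemma root_norm {d : ℕ} (hd : d ≠ 0) {x : k} (hx : x ^ d = 1) : ‖x‖ = 1 := by
  have h : ‖x‖ ^ d = 1 := by rw [← norm_pow, hx, norm_one]
  exact (pow_eq_one_iff_of_nonneg (norm_nonneg _) hd).1 h

/-- different roots of unity are not too close -/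
lemma root_dist {d : ℕ} (hd : d ≠ 0) {x y : k} (hx : x ^ d = 1) (hy : y ^ d = 1) (hxy : x ≠ y) :
    ‖(d : k)‖ ≤ ‖x - y‖ := by
  have hy0 : y ≠ 0 := by
    rintro rfl
    rw [zero_pow hd] at hy
    exact zero_ne_one hy
  set z := x / y with hz
  have hz1 : z ^ d = 1 := by rw [hz, div_pow, hx, hy, div_one]
  have hzn : ‖z‖ ≤ 1 := (root_norm hd hz1).le
  have hne : z - 1 ≠ 0 := by
    intro h
    apply hxy
    have : z = 1 := sub_eq_zero.1 h
    rw [hz, div_eq_one_iff_eq hy0] at this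
    exact this
  have hsum : ∑ j ∈ Finset.range d, z ^ j = 0 := by
    have := geom_sum_mul z d
    rw [hz1, sub_self] at this
    exact (mul_eq_zero.1 this).resolve_right hne
  have e : (d : k) = ∑ j ∈ Finset.range d, (1 ^ j - z ^ j) := by
    rw [Finset.sum_sub_distrib, hsum]
    simp
  have h1 : ‖(d : k)‖ ≤ ‖1 - z‖ := by
    rw [e]
    exact nsum _ _ (norm_nonneg _) fun j _ => pow_sub_pow_le (by rw [norm_one]) hzn j
  have h2 : x - y = -(y * (1 - z)) := by
    rw [hz]; field_simp; ring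
  rw [h2, norm_neg, norm_mul, root_norm hd hy, one_mul]
  exact h1

variable [CompleteSpace k]

/-- the polynomial `a (y ^ d - 1)` -/
noncomputable def hp (a : k) (d : ℕ) : k[X] := C a * (X ^ d - 1)

omit [IsUltrametricDist k] [CompleteSpace k] in
lemma eval_hp (a : k) (d : ℕ) (y : k) : (hp a d).eval y = a * (y ^ d - 1) := by simp [hp]

theorem exists_word {d : ℕ} (hd : d ≠ 0) (hd0 : (d : k) ≠ 0) {a δ : k}
    (h : max 1 ‖δ‖ < ‖a‖ * ‖(d : k)‖ ^ 2) {n : ℕ} [NeZero n] (s : ZMod n → k)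
    (hs : ∀ t, s t ^ d = 1) :
    ∃ y : ZMod n → k, (∀ t, ‖y t - s t‖ < ‖(d : k)‖) ∧
      ∀ t, y (t + 1) + δ * y (t - 1) = (hp a d).eval (y t) := by
  have hdp : 0 < ‖(d : k)‖ := norm_pos_iff.2 hd0
  have hD : (1 : ℝ) ≤ max 1 ‖δ‖ := le_max_left _ _
  have ha : 0 < ‖a‖ := by
    rcases (norm_nonneg a).lt_or_eq with h1 | h1
    · exact h1
    · rw [← h1, zero_mul] at h; linarith
  have ha0 : a ≠ 0 := norm_pos_iff.1 ha
  have hsn : ∀ t, ‖s t‖ = 1 := fun t => root_norm hd (hs t)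
  have hGi : Integral (X ^ d - 1 : k[X]) := by
    intro i
    rw [coeff_sub, coeff_X_pow, coeff_one]
    refine (nsub _ _).trans (max_le ?_ ?_)
    · split_ifs <;> simp
    · split_ifs <;> simp
  have hη : max 1 ‖δ‖ / ‖a‖ < ‖(d : k)‖ ^ 2 := by
    rw [div_lt_iff₀ ha, mul_comm]; exact h
  have hPb : ∀ x x' : k, ∀ r : ℝ, ‖x‖ ≤ r → ‖x'‖ ≤ r →
      ‖a⁻¹ * (x + δ * x')‖ ≤ max 1 ‖δ‖ / ‖a‖ * r := by
    intro x x' r hx hx'
    have hr : 0 ≤ r := (norm_nonneg _).trans hx
    rw [norm_mul, norm_inv, inv_mul_le_iff₀ ha]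
    have e : ‖a‖ * (max 1 ‖δ‖ / ‖a‖ * r) = max 1 ‖δ‖ * r := by field_simp
    rw [e]
    refine (nadd _ _).trans (max_le ?_ ?_)
    · calc ‖x‖ ≤ 1 * r := by rw [one_mul]; exact hx
        _ ≤ _ := by gcongr
    · rw [norm_mul]
      calc _ ≤ max 1 ‖δ‖ * r := by
            gcongr
            exact le_max_right _ _
        _ = _ := rfl
  obtain ⟨y, hy1, hy2⟩ := exists_solution hGi s (fun t => (hsn t).le) hdp (norm_nat_le d)
    (fun t => by
      rw [derivative_sub, derivative_one, sub_zero, derivative_X_pow]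
      simp [hsn t])
    (by positivity : (0 : ℝ) ≤ max 1 ‖δ‖ / ‖a‖) hη (fun y t => a⁻¹ * (y (t + 1) + δ * y (t - 1)))
    (fun y z r hr t => by
      have e : a⁻¹ * (y (t + 1) + δ * y (t - 1)) - a⁻¹ * (z (t + 1) + δ * z (t - 1)) =
        a⁻¹ * ((y (t + 1) - z (t + 1)) + δ * (y (t - 1) - z (t - 1))) := by ring
      rw [e]
      exact hPb _ _ r (hr _) (hr _))
    (fun t => by
      have e : (X ^ d - 1 : k[X]).eval (s t) = 0 := by simp [hs t]
      rw [e, zero_sub, norm_neg]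
      have := hPb (s (t + 1)) (s (t - 1)) 1 (hsn _).le (hsn _).le
      rwa [mul_one] at this)
  refine ⟨y, fun t => (hy1 t).trans_lt ?_, fun t => ?_⟩
  · rw [div_lt_iff₀ hdp, ← pow_two]
    exact hη
  · have := hy2 t
    rw [eval_hp]
    simp only [eval_sub, eval_pow, eval_X, eval_one] at this
    rw [this]
    field_simp

omit [IsUltrametricDist k] [CompleteSpace k] in
lemma orbit_of_seq {F : k[X]} {δ : k} {n : ℕ} (y : ZMod n → k)
    (hy : ∀ t, y (t + 1) + δ * y (t - 1) = F.eval (y t)) (i : ℕ) :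
    (hen F δ)^[i] (y 0, y 1) = (y (i : ZMod n), y ((i : ZMod n) + 1)) := by
  induction i with
  | zero => simp
  | succ i ih =>
    rw [iterate_succ_apply', ih]
    unfold hen
    have := hy ((i : ZMod n) + 1)
    rw [add_sub_cancel_right] at this
    ext
    · simp
    · push_cast
      show F.eval (y ((i : ZMod n) + 1)) - δ * y (i : ZMod n) = _
      rw [← this]; ring

theorem horseshoe {d : ℕ} (hd : d ≠ 0) (hd0 : (d : k) ≠ 0) {a δ : k}
    (h : max 1 ‖δ‖ < ‖a‖ * ‖(d : k)‖ ^ 2) (R : Finset k) (hR : ∀ x ∈ R, x ^ d = 1) (n : ℕ)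
    (hn : 0 < n) :
    ∃ S : Finset (k × k), S.card = R.card ^ n ∧ ∀ P ∈ S, (hen (hp a d) δ)^[n] P = P := by
  classical
  have : NeZero n := ⟨hn.ne'⟩
  choose Y hY1 hY2 using fun w : ZMod n → R =>
    exists_word hd hd0 h (fun t => (w t : k)) (fun t => hR _ (w t).2)
  let g : (ZMod n → R) → k × k := fun w => (Y w 0, Y w 1)
  have horb : ∀ w (i : ℕ), (hen (hp a d) δ)^[i] (g w) = (Y w (i : ZMod n), Y w ((i : ZMod n) + 1)) :=
    fun w i => orbit_of_seq (Y w) (hY2 w) i
  have hinj : Injective g := by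
    intro w w' hw
    have hall : ∀ t, Y w t = Y w' t := by
      intro t
      have h1 := horb w t.val
      have h2 := horb w' t.val
      rw [hw, h2] at h1
      have := congrArg Prod.fst h1
      simp only [ZMod.natCast_val, ZMod.cast_id', id] at this
      exact this.symm
    funext t
    by_contra hne
    have hne' : (w t : k) ≠ w' t := fun hh => hne (Subtype.ext hh)
    have h3 := root_dist hd (hR _ (w t).2) (hR _ (w' t).2) hne'
    have e : (w t : k) - w' t = (Y w' t - w' t) - (Y w t - w t) := by rw [hall t]; ring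
    rw [e] at h3
    exact absurd h3 (not_le.2 ((nsub _ _).trans_lt (max_lt (hY1 w' t) (hY1 w t))))
  refine ⟨Finset.univ.image g, ?_, ?_⟩
  · rw [Finset.card_image_of_injective _ hinj, Finset.card_univ, Fintype.card_fun, ZMod.card,
      Fintype.card_coe]
  · intro P hP
    rw [Finset.mem_image] at hP
    obtain ⟨w, -, rfl⟩ := hP
    rw [horb w n, ZMod.natCast_self, zero_add]

theorem infinite_periodic {d : ℕ} (hd : d ≠ 0) (hd0 : (d : k) ≠ 0) {a δ : k}
    (h : max 1 ‖δ‖ < ‖a‖ * ‖(d : k)‖ ^ 2) {x : k} (hx : x ^ d = 1) (hx1 : x ≠ 1) :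
    {P : k × k | ∃ n : ℕ, 0 < n ∧ (hen (hp a d) δ)^[n] P = P}.Infinite := by
  classical
  intro hfin
  set C := hfin.toFinset.card
  obtain ⟨S, hS, hS2⟩ := horseshoe hd hd0 h {x, 1} (by
    intro z hz
    rw [Finset.mem_insert, Finset.mem_singleton] at hz
    rcases hz with rfl | rfl
    · exact hx
    · exact one_pow d) (C + 1) (by omega)
  rw [Finset.card_pair hx1] at hS
  have h1 : S ⊆ hfin.toFinset := by
    intro P hP
    rw [Set.Finite.mem_toFinset]
    exact ⟨C + 1, by omega, hS2 P hP⟩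
  have h2 := Finset.card_le_card h1
  rw [hS] at h2
  have h3 : C + 1 < 2 ^ (C + 1) := Nat.lt_two_pow_self
  omega

omit [IsUltrametricDist k] [CompleteSpace k] in
lemma natDegree_hp {a : k} (ha : a ≠ 0) {d : ℕ} (hd : d ≠ 0) : (hp a d).natDegree = d := by
  unfold hp
  rw [natDegree_C_mul ha]
  have : (X ^ d - 1 : k[X]) = X ^ d - C 1 := by simp
  rw [this]
  exact natDegree_X_pow_sub_C

/-- If `k` contains `d` roots of unity of order dividing `d`, all periodic points over extensions of `k`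
have coordinates in `k`. -/
theorem all_points {d : ℕ} (hd : 2 ≤ d) (hd0 : (d : k) ≠ 0) {a δ : k}
    (h : max 1 ‖δ‖ < ‖a‖ * ‖(d : k)‖ ^ 2) (R : Finset k) (hR : ∀ x ∈ R, x ^ d = 1)
    (hRc : R.card = d) (n : ℕ) (hn : 0 < n) (Ω : Type) [Field Ω] (ι : k →+* Ω) (P : Ω × Ω)
    (hP : (hen ((hp a d).map ι) (ι δ))^[n] P = P) : ∃ Q : k × k, P = (ι Q.1, ι Q.2) := by
  classical
  obtain ⟨S, hS, hS2⟩ := horseshoe (by omega) hd0 h R hR n hn
  have ha : a ≠ 0 := by
    rintro rfl
    rw [norm_zero, zero_mul] at h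
    have : (1 : ℝ) ≤ max 1 ‖δ‖ := le_max_left _ _
    linarith
  have hiter : ∀ (Q : k × k) (t : ℕ), Prod.map ι ι ((hen (hp a d) δ)^[t] Q) =
      (hen ((hp a d).map ι) (ι δ))^[t] (Prod.map ι ι Q) := by
    intro Q t
    induction t with
    | zero => rfl
    | succ t ih =>
      rw [iterate_succ_apply', iterate_succ_apply', ← ih]
      unfold hen
      simp [Polynomial.eval_map]
  by_contra hcon
  push Not at hcon
  have hinj : Injective (Prod.map ι ι) := ι.injective.prodMap ι.injective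
  set T : Finset (Ω × Ω) := insert P (S.image (Prod.map ι ι)) with hT
  have hcard : T.card = d ^ n + 1 := by
    rw [hT, Finset.card_insert_of_notMem, Finset.card_image_of_injective _ hinj, hS, hRc]
    intro hmem
    rw [Finset.mem_image] at hmem
    obtain ⟨Q, -, hQ⟩ := hmem
    exact hcon Q hQ.symm
  have hdeg : ((hp a d).map ι).natDegree = d := by
    rw [natDegree_map, natDegree_hp ha (by omega)]
  have h1 := card_periodic_le ((hp a d).map ι) (ι δ) T n hn (by rw [hdeg]; exact hd) (by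
    intro Q hQ
    rw [hT, Finset.mem_insert, Finset.mem_image] at hQ
    rcases hQ with rfl | ⟨Q', hQ', rfl⟩
    · exact hP
    · rw [← hiter, hS2 Q' hQ'])
  rw [hdeg, hcard] at h1
  omega

end Pool.Agent.H16.LF
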