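import Pool.Agent.H16.LF.Per
import Pool.Agent.H16.LF.Horse

/-!
# Local fields and the field of the `p`-adic numbers
-/

set_option autoImplicit false

namespace Pool.Agent.H16.LF

open Polynomial Function

theorem classes_of_proper (k : Type) [NormedField k] [ProperSpace k] [CharZero k] {p : ℕ}
    (hp : p.Prime) : ∃ N, Classes k p N := by
  classical
  have hp0 : 0 < ‖(p : k)‖ ^ 2 := by
    have : (p : k) ≠ 0 := by exact_mod_cast hp.ne_zero
    positivity
  obtain ⟨t, ht1, ht2, ht3⟩ := (isCompact_closedBall (0 : k) 1).finite_cover_balls hp0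
  refine ⟨ht2.toFinset.card, ht2.toFinset, le_rfl, fun x hx => ?_⟩
  have hx' : x ∈ Metric.closedBall (0 : k) 1 := by simpa using hx
  have := ht3 hx'
  rw [Set.mem_iUnion₂] at this
  obtain ⟨y, hy, hxy⟩ := this
  refine ⟨y, by simpa using hy, ?_⟩
  rw [Metric.mem_ball, dist_eq_norm] at hxy
  exact hxy.le

theorem classes_padic (p : ℕ) [Fact p.Prime] : Classes ℚ_[p] p (p ^ 2) := by
  classical
  refine ⟨(Finset.range (p ^ 2)).image (fun n : ℕ => (n : ℚ_[p])), ?_, fun x hx => ?_⟩
  · exact Finset.card_image_le.trans (by rw [Finset.card_range])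
  · let X : ℤ_[p] := ⟨x, hx⟩
    refine ⟨((X.appr 2 : ℕ) : ℚ_[p]), ?_, ?_⟩
    · exact Finset.mem_image_of_mem _ (Finset.mem_range.2 (PadicInt.appr_lt X 2))
    · have h1 := PadicInt.appr_spec 2 X
      rw [← PadicInt.norm_le_pow_iff_mem_span_pow] at h1
      have h2 : ‖((X - (X.appr 2 : ℕ) : ℤ_[p]) : ℚ_[p])‖ ≤ (p : ℝ) ^ (-(2 : ℕ) : ℤ) := h1
      push_cast at h2
      have e : ‖((p : ℕ) : ℚ_[p])‖ ^ 2 = (p : ℝ) ^ (-(2 : ℕ) : ℤ) := by
        rw [Padic.norm_p, inv_pow, zpow_neg]
        norm_cast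
      rw [e]
      exact_mod_cast h2

section roots

variable (p : ℕ) [hpf : Fact p.Prime]

/-- a `p`-adic unit with trivial residue class -/
lemma close_of_pow {l : ℕ} (hl : Nat.Coprime l (p - 1)) {x : ℚ_[p]} (hx : ‖x‖ = 1)
    (h : ‖x ^ l - 1‖ < 1) : ‖x - 1‖ < 1 := by
  let X : ℤ_[p] := ⟨x, hx.le⟩
  have key : ∀ y : ℤ_[p], PadicInt.toZMod y = 0 ↔ ‖(y : ℚ_[p])‖ < 1 := by
    intro y
    rw [← RingHom.mem_ker, PadicInt.ker_toZMod, PadicInt.maximalIdeal_eq_span_p]
    have h1 := PadicInt.norm_lt_one_iff_dvd y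
    rw [Ideal.mem_span_singleton]
    exact h1.symm
  have h1 : PadicInt.toZMod (X ^ l - 1) = 0 := by
    rw [key]
    push_cast
    exact h
  have h2 : PadicInt.toZMod X ^ l = 1 := by
    rw [map_sub, map_pow, map_one] at h1
    exact sub_eq_zero.1 h1
  have h3 : PadicInt.toZMod X ≠ 0 := by
    rw [Ne, key]
    show ¬ ‖x‖ < 1
    rw [hx]; exact lt_irrefl _
  have h4 : PadicInt.toZMod X ^ (p - 1) = 1 := ZMod.pow_card_sub_one_eq_one h3
  have h5 : orderOf (PadicInt.toZMod X) ∣ 1 := by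
    have := Nat.dvd_gcd (orderOf_dvd_of_pow_eq_one h2) (orderOf_dvd_of_pow_eq_one h4)
    rwa [hl.gcd_eq_one] at this
  have h6 : PadicInt.toZMod X = 1 := orderOf_eq_one_iff.1 (Nat.dvd_one.1 h5)
  have h7 : PadicInt.toZMod (X - 1) = 0 := by rw [map_sub, map_one, h6, sub_self]
  rw [key] at h7
  push_cast at h7
  exact h7

lemma prime_root {l : ℕ} (hl : l.Prime) (hcop : Nat.Coprime l (p - 1)) (h2 : p = 2 → l ≠ 2)
    {x : ℚ_[p]} (hx : x ^ l = 1) : x = 1 := by
  have hp : p.Prime := hpf.out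
  have hxn := root_norm hl.ne_zero hx
  have hx1 : ‖x - 1‖ < 1 := close_of_pow p hcop hxn (by rw [hx, sub_self, norm_zero]; exact one_pos)
  by_contra hne
  set T := x - 1 with hT
  have hT0 : T ≠ 0 := sub_ne_zero.2 hne
  have hTp : 0 < ‖T‖ := norm_pos_iff.2 hT0
  have hTn : ‖T‖ ≤ 1 / p := by
    have h3 : ‖T‖ < (p : ℝ) ^ (0 : ℤ) := by simpa using hx1
    have h4 := (Padic.norm_le_pow_iff_norm_lt_pow_add_one T (-1)).2 (by simpa using hx1)
    rw [zpow_neg, zpow_one] at h4
    rwa [one_div]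
  have hsum : ∑ j ∈ Finset.range l, x ^ j = 0 := by
    have := geom_sum_mul x l
    rw [hx, sub_self] at this
    exact (mul_eq_zero.1 this).resolve_right hT0
  by_cases hlp : l = p
  · -- the residue characteristic
    subst hlp
    have hl3 : 3 ≤ l := by
      have h3 : l ≠ 2 := fun h => h2 h h
      have := hl.two_le
      omega
    have hlr : (3 : ℝ) ≤ l := by exact_mod_cast hl3
    have hln : ‖(l : ℚ_[l])‖ = 1 / l := by rw [Padic.norm_p, one_div]
    -- expansion
    have hexp : x ^ l - 1 = T ^ l + ∑ j ∈ Finset.Ico 1 l, T ^ j * (l.choose j : ℚ_[l]) := by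
      have : x = T + 1 := by rw [hT]; ring
      rw [this, add_pow, Finset.sum_range_succ, Finset.range_eq_Ico,
        Finset.sum_eq_sum_Ico_succ_bot hl.pos]
      simp
      ring
    have hexp2 : -(T * l) = T ^ l + ∑ j ∈ Finset.Ico 2 l, T ^ j * (l.choose j : ℚ_[l]) := by
      rw [Finset.sum_eq_sum_Ico_succ_bot (by omega : 1 < l)] at hexp
      rw [hx, sub_self, pow_one, Nat.choose_one_right] at hexp
      linear_combination hexp
    have hb : ‖T ^ l + ∑ j ∈ Finset.Ico 2 l, T ^ j * (l.choose j : ℚ_[l])‖ ≤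
        ‖T‖ * (1 / l) ^ 2 := by
      refine (nadd _ _).trans (max_le ?_ (nsum _ _ (by positivity) fun j hj => ?_))
      · rw [norm_pow]
        calc ‖T‖ ^ l = ‖T‖ * ‖T‖ ^ (l - 1) := by
              rw [← pow_succ']; congr 1; omega
          _ ≤ ‖T‖ * (1 / l) ^ (l - 1) := by gcongr
          _ ≤ ‖T‖ * (1 / l) ^ 2 := by
              gcongr 1
              refine pow_le_pow_of_le_one (by positivity) ?_ (by omega)
              rw [div_le_one (by positivity)]
              linarith
      · rw [Finset.mem_Ico] at hj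
        obtain ⟨m, hm⟩ := hl.dvd_choose_self (by omega) hj.2
        rw [norm_mul, norm_pow, hm]
        push_cast
        rw [norm_mul, hln]
        have hm1 : ‖(m : ℚ_[l])‖ ≤ 1 := norm_nat_le m
        have hTj : ‖T‖ ^ j ≤ ‖T‖ * (1 / l) := by
          calc ‖T‖ ^ j ≤ ‖T‖ ^ 2 := pow_le_pow_of_le_one (norm_nonneg _) hx1.le hj.1
            _ = ‖T‖ * ‖T‖ := pow_two _
            _ ≤ _ := by gcongr
        calc ‖T‖ ^ j * (1 / l * ‖(m : ℚ_[l])‖) ≤ (‖T‖ * (1 / l)) * (1 / l * 1) := by gcongr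
          _ = _ := by ring
    rw [← hexp2, norm_neg, norm_mul, hln] at hb
    have h5 : (1 : ℝ) / l ≤ (1 / l) ^ 2 := le_of_mul_le_mul_left hb hTp
    rw [pow_two] at h5
    have h6 : (0 : ℝ) < 1 / l := by positivity
    have h7 : (1 : ℝ) ≤ 1 / l := le_of_mul_le_mul_left (by rw [mul_one]; exact h5) h6
    rw [le_div_iff₀ (by positivity)] at h7
    linarith
  · have hln : ‖(l : ℚ_[p])‖ = 1 := by
      have h3 : ¬ (p : ℤ) ∣ (l : ℤ) := by
        intro h4
        have h5 : p ∣ l := by exact_mod_cast h4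
        exact hlp ((Nat.prime_dvd_prime_iff_eq hp hl).1 h5).symm
      have := Padic.norm_intCast_eq_one_iff (z := (l : ℤ)) (p := p)
      have h6 : IsCoprime (l : ℤ) (p : ℤ) :=
        Nat.isCoprime_iff_coprime.2 ((Nat.coprime_primes hl hp).2 hlp)
      simpa using this.2 h6
    have h5 : ‖(l : ℚ_[p])‖ ≤ ‖T‖ := by
      have e : (l : ℚ_[p]) = ∑ j ∈ Finset.range l, (1 ^ j - x ^ j) := by
        rw [Finset.sum_sub_distrib, hsum]
        simp
      rw [e]
      refine nsum _ _ (norm_nonneg _) fun j _ => ?_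
      refine (pow_sub_pow_le (by rw [norm_one]) hxn.le j).trans ?_
      rw [norm_sub_rev]
    rw [hln] at h5
    exact absurd hx1 (not_lt.2 h5)

/-- the criterion for the field of the `p`-adic numbers -/
def Good (p d : ℕ) : Prop := (p = 2 → Odd d) ∧ Nat.Coprime d (p - 1)

lemma roots_padic {d : ℕ} (hd : d ≠ 0) (hg : Good p d) (x : ℚ_[p]) (hx : x ^ d = 1) : x = 1 := by
  by_contra hne
  have h1 : orderOf x ≠ 1 := fun h => hne (orderOf_eq_one_iff.1 h)
  set l := (orderOf x).minFac with hl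
  have hlp : l.Prime := Nat.minFac_prime h1
  have hdvd : orderOf x ∣ d := orderOf_dvd_of_pow_eq_one hx
  have hld : l ∣ d := (Nat.minFac_dvd _).trans hdvd
  obtain ⟨m, hm⟩ := Nat.minFac_dvd (orderOf x)
  have hm' : orderOf x = l * m := hm
  have h2 : (x ^ m) ^ l = 1 := by rw [← pow_mul, mul_comm, ← hm', pow_orderOf_eq_one]
  have h3 := prime_root p hlp (hg.2.coprime_dvd_left hld) (fun h h' => by
    have := hg.1 h
    rw [h'] at hld
    exact absurd (even_iff_two_dvd.2 hld) (Nat.not_even_iff_odd.2 this)) h2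
  have h4 := orderOf_dvd_of_pow_eq_one h3
  have hpos : 0 < orderOf x := Nat.pos_of_ne_zero fun h => hd (by
    rw [h] at hdvd; exact Nat.eq_zero_of_zero_dvd hdvd)
  have hm0 : 0 < m := by
    rcases Nat.eq_zero_or_pos m with h | h
    · rw [h, mul_zero] at hm'; omega
    · exact h
  have h5 := Nat.le_of_dvd hm0 h4
  rw [hm'] at h5
  have := hlp.two_le
  nlinarith

lemma exists_root {d : ℕ} (hd : d ≠ 0) (hg : ¬ Good p d) : ∃ x : ℚ_[p], x ^ d = 1 ∧ x ≠ 1 := by
  have hp : p.Prime := hpf.out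
  by_cases h2 : p = 2 ∧ Even d
  · refine ⟨-1, h2.2.neg_one_pow, ?_⟩
    norm_num
  · have hcop : ¬ Nat.Coprime d (p - 1) := by
      intro h
      apply hg
      refine ⟨fun h' => ?_, h⟩
      rw [← Nat.not_even_iff_odd]
      exact fun h'' => h2 ⟨h', h''⟩
    set m := Nat.gcd d (p - 1) with hm
    have hp1 : 0 < p - 1 := by have := hp.two_le; omega
    have hm0 : 0 < m := Nat.gcd_pos_of_pos_left _ (Nat.pos_of_ne_zero hd)
    have hm1 : m ≠ 1 := hcop
    -- an element of order `m`
    obtain ⟨g, hg⟩ := IsCyclic.exists_generator (α := (ZMod p)ˣ)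
    have hcard : orderOf g = p - 1 := by
      rw [orderOf_eq_card_of_forall_mem_zpowers hg, Nat.card_eq_fintype_card,
        ZMod.card_units_eq_totient, Nat.totient_prime hp]
    obtain ⟨e, he⟩ : m ∣ p - 1 := Nat.gcd_dvd_right _ _
    set u : (ZMod p)ˣ := g ^ e with hu
    have hum : u ^ m = 1 := by
      rw [hu, ← pow_mul, mul_comm, ← he, ← hcard, pow_orderOf_eq_one]
    have hu1 : u ≠ 1 := by
      intro h
      have h3 := orderOf_dvd_of_pow_eq_one h
      rw [hcard, he] at h3
      have he0 : 0 < e := by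
        rcases Nat.eq_zero_or_pos e with h | h
        · rw [h, mul_zero] at he; omega
        · exact h
      have h4 := Nat.le_of_dvd he0 h3
      have : 2 ≤ m := by omega
      nlinarith
    -- lift to the `p`-adic integers
    let Z : ℤ_[p] := ((u : ZMod p).val : ℕ)
    have hX : PadicInt.toZMod Z = (u : ZMod p) := by
      show PadicInt.toZMod (((u : ZMod p).val : ℕ) : ℤ_[p]) = _
      rw [map_natCast, ZMod.natCast_zmod_val]
    have key : ∀ y : ℤ_[p], PadicInt.toZMod y = 0 ↔ ‖(y : ℚ_[p])‖ < 1 := by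
      intro y
      rw [← RingHom.mem_ker, PadicInt.ker_toZMod, PadicInt.maximalIdeal_eq_span_p]
      have h1 := PadicInt.norm_lt_one_iff_dvd y
      rw [Ideal.mem_span_singleton]
      exact h1.symm
    have hXn : ‖(Z : ℚ_[p])‖ = 1 := by
      refine le_antisymm Z.2 (not_lt.1 fun h => ?_)
      rw [← key, hX] at h
      exact u.ne_zero h
    have hXm : ‖(Z : ℚ_[p]) ^ m - 1‖ < 1 := by
      have : PadicInt.toZMod (Z ^ m - 1) = 0 := by
        rw [map_sub, map_pow, map_one, hX, ← Units.val_pow_eq_pow_val, hum, Units.val_one, sub_self]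
      rw [key] at this
      push_cast at this
      exact this
    have hmn : ‖(m : ℚ_[p])‖ = 1 := by
      have h6 : IsCoprime (m : ℤ) (p : ℤ) := by
        apply Nat.isCoprime_iff_coprime.2
        have h7 : Nat.Coprime (p - 1) p := by
          have : p - 1 + 1 = p := by omega
          have h8 := Nat.coprime_self_add_right (m := p - 1) (n := 1)
          rw [this] at h8
          exact h8.2 (Nat.coprime_one_right _)
        exact Nat.Coprime.coprime_dvd_left ⟨e, he⟩ h7
      have := (Padic.norm_intCast_eq_one_iff (z := (m : ℤ)) (p := p)).2 h6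
      simpa using this
    have hGi : Integral (X ^ m - 1 : ℚ_[p][X]) := by
      intro i
      rw [coeff_sub, coeff_X_pow, coeff_one]
      refine (nsub _ _).trans (max_le ?_ ?_)
      · split_ifs <;> simp
      · split_ifs <;> simp
    obtain ⟨y, hy1, hy2⟩ := hensel hGi (s := (Z : ℚ_[p])) hXn.le (by simpa using hXm) (by
      rw [derivative_sub, derivative_one, sub_zero, derivative_X_pow]
      simp [hXn, hmn])
    have hym : y ^ m = 1 := by
      simp only [Polynomial.eval_sub, eval_pow, eval_X, eval_one] at hy2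
      exact sub_eq_zero.1 hy2
    obtain ⟨e', he'⟩ : m ∣ d := Nat.gcd_dvd_left _ _
    refine ⟨y, by rw [he', pow_mul, hym, one_pow], ?_⟩
    rintro rfl
    apply hu1
    have h9 : PadicInt.toZMod (Z - 1) = 0 := by
      rw [key]
      push_cast
      rw [norm_sub_rev]
      exact hy1
    rw [map_sub, map_one, hX] at h9
    exact Units.ext (sub_eq_zero.1 h9)

lemma norm_dvd {d : ℕ} (hd : d ≠ 0) (hdvd : d ∣ p - 1) : ‖(d : ℚ_[p])‖ = 1 := by
  have hp : p.Prime := hpf.out
  have hp1 : 0 < p - 1 := by have := hp.two_le; omega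
  have h6 : IsCoprime (d : ℤ) (p : ℤ) := by
    apply Nat.isCoprime_iff_coprime.2
    have h7 : Nat.Coprime (p - 1) p := by
      have : p - 1 + 1 = p := by omega
      have h8 := Nat.coprime_self_add_right (m := p - 1) (n := 1)
      rw [this] at h8
      exact h8.2 (Nat.coprime_one_right _)
    exact Nat.Coprime.coprime_dvd_left hdvd h7
  have := (Padic.norm_intCast_eq_one_iff (z := (d : ℤ)) (p := p)).2 h6
  simpa using this

/-- The `p`-adic numbers contain `d` roots of unity of order dividing `d` if `d` divides `p - 1`. -/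
lemma all_roots {d : ℕ} (hd : d ≠ 0) (hdvd : d ∣ p - 1) :
    ∃ R : Finset ℚ_[p], (∀ x ∈ R, x ^ d = 1) ∧ R.card = d := by
  classical
  have hp : p.Prime := hpf.out
  have hp1 : 0 < p - 1 := by have := hp.two_le; omega
  obtain ⟨g, hg⟩ := IsCyclic.exists_generator (α := (ZMod p)ˣ)
  have hcard : orderOf g = p - 1 := by
    rw [orderOf_eq_card_of_forall_mem_zpowers hg, Nat.card_eq_fintype_card,
      ZMod.card_units_eq_totient, Nat.totient_prime hp]
  obtain ⟨e, he⟩ := hdvd
  have he0 : 0 < e := by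
    rcases Nat.eq_zero_or_pos e with h | h
    · rw [h, mul_zero] at he; omega
    · exact h
  set u : (ZMod p)ˣ := g ^ e with hu
  have hord : orderOf u = d := by
    rw [hu, orderOf_pow, hcard, he, Nat.gcd_comm, Nat.gcd_eq_left ⟨d, by ring⟩]
    exact Nat.mul_div_cancel _ he0
  have key : ∀ y : ℤ_[p], PadicInt.toZMod y = 0 ↔ ‖(y : ℚ_[p])‖ < 1 := by
    intro y
    rw [← RingHom.mem_ker, PadicInt.ker_toZMod, PadicInt.maximalIdeal_eq_span_p]
    have h1 := PadicInt.norm_lt_one_iff_dvd y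
    rw [Ideal.mem_span_singleton]
    exact h1.symm
  have hGi : Integral (X ^ d - 1 : ℚ_[p][X]) := by
    intro i
    rw [coeff_sub, coeff_X_pow, coeff_one]
    refine (nsub _ _).trans (max_le ?_ ?_)
    · split_ifs <;> simp
    · split_ifs <;> simp
  have hdn := norm_dvd p hd ⟨e, he⟩
  have hlift : ∀ i : ℕ, ∃ y : ℚ_[p], y ^ d = 1 ∧
      ∃ Z : ℤ_[p], PadicInt.toZMod Z = ((u ^ i : (ZMod p)ˣ) : ZMod p) ∧ ‖y - Z‖ < 1 := by
    intro i
    let Z : ℤ_[p] := (((u ^ i : (ZMod p)ˣ) : ZMod p).val : ℕ)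
    have hX : PadicInt.toZMod Z = ((u ^ i : (ZMod p)ˣ) : ZMod p) := by
      show PadicInt.toZMod ((((u ^ i : (ZMod p)ˣ) : ZMod p).val : ℕ) : ℤ_[p]) = _
      rw [map_natCast, ZMod.natCast_zmod_val]
    have hXn : ‖(Z : ℚ_[p])‖ = 1 := by
      refine le_antisymm Z.2 (not_lt.1 fun h => ?_)
      rw [← key, hX] at h
      exact (u ^ i).ne_zero h
    have hXm : ‖(Z : ℚ_[p]) ^ d - 1‖ < 1 := by
      have : PadicInt.toZMod (Z ^ d - 1) = 0 := by
        rw [map_sub, map_pow, map_one, hX, ← Units.val_pow_eq_pow_val, ← pow_mul, mul_comm i d,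
          pow_mul, ← hord, pow_orderOf_eq_one, one_pow, Units.val_one, sub_self]
      rw [key] at this
      push_cast at this
      exact this
    obtain ⟨y, hy1, hy2⟩ := hensel hGi (s := (Z : ℚ_[p])) hXn.le (by simpa using hXm) (by
      rw [derivative_sub, derivative_one, sub_zero, derivative_X_pow]
      simp [hXn, hdn])
    refine ⟨y, ?_, Z, hX, hy1⟩
    simp only [Polynomial.eval_sub, eval_pow, eval_X, eval_one] at hy2
    exact sub_eq_zero.1 hy2
  choose y hy Z hZ hyZ using hlift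
  refine ⟨(Finset.range d).image y, ?_, ?_⟩
  · intro x hx
    rw [Finset.mem_image] at hx
    obtain ⟨i, -, rfl⟩ := hx
    exact hy i
  · rw [Finset.card_image_of_injOn, Finset.card_range]
    intro i hi j hj hij
    simp only [Finset.coe_range, Set.mem_Iio] at hi hj
    have h1 : PadicInt.toZMod (Z i - Z j) = 0 := by
      rw [key]
      push_cast
      have e : (Z i : ℚ_[p]) - Z j = (y j - Z j) - (y i - Z i) := by rw [hij]; ring
      rw [e]
      exact (nsub _ _).trans_lt (max_lt (hyZ j) (hyZ i))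
    rw [map_sub, hZ, hZ, sub_eq_zero] at h1
    have h2 : u ^ i = u ^ j := Units.ext h1
    exact pow_injOn_Iio_orderOf (by rw [hord]; exact hi) (by rw [hord]; exact hj) h2

end roots

end Pool.Agent.H16.LF
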