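import Pool.Agent.H16.LF.Rigid
import Pool.Agent.H16.LF.L.HD6

/-!
# The period of the periodic points of Hénon maps with tame polynomials
-/

set_option autoImplicit false

namespace Pool.Agent.H16.LF

open Polynomial Pool.Agent.Q195.HD Pool.Agent.H504D

variable {k : Type} [NormedField k] [IsUltrametricDist k]

/-- the norm as an absolute value -/
noncomputable def nv (k : Type) [NormedField k] : AbsoluteValue k ℝ where
  toFun x := ‖x‖
  map_mul' x y := norm_mul x y
  nonneg' x := norm_nonneg _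
  eq_zero' x := norm_eq_zero
  add_le' x y := norm_add_le _ _

lemma nv_apply (x : k) : nv k x = ‖x‖ := rfl

lemma nv_na : IsNonarchimedean (nv k) := fun x y => nadd x y

/-- The ring of integers has at most `N` residue classes modulo `p ^ 2`. -/
def Classes (k : Type) [NormedField k] (p N : ℕ) : Prop :=
  ∃ t : Finset k, t.card ≤ N ∧ ∀ x : k, ‖x‖ ≤ 1 → ∃ y ∈ t, ‖x - y‖ ≤ ‖(p : k)‖ ^ 2

/-- the universal period -/
def uper (N : ℕ) : ℕ := (N ^ 2).factorial * (N ^ 2).factorial

lemma uper_pos (N : ℕ) : 0 < uper N := Nat.mul_pos (Nat.factorial_pos _) (Nat.factorial_pos _)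

lemma quot_finite [CharZero k] {p N : ℕ} (hp : p.Prime) (hN : Classes k p N) :
    Finite (OO (nv k) nv_na ⧸ Ideal.span {((p ^ 2 : ℕ) : OO (nv k) nv_na)}) ∧
      Nat.card (OO (nv k) nv_na ⧸ Ideal.span {((p ^ 2 : ℕ) : OO (nv k) nv_na)}) ≤ N := by
  classical
  obtain ⟨t, htN, ht⟩ := hN
  have hq0 : (((p ^ 2 : ℕ) : OO (nv k) nv_na) : k) ≠ 0 := by
    push_cast
    exact pow_ne_zero 2 (by exact_mod_cast hp.ne_zero)
  let g : (OO (nv k) nv_na ⧸ Ideal.span {((p ^ 2 : ℕ) : OO (nv k) nv_na)}) → k := fun s =>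
    ((Ideal.Quotient.mk_surjective s).choose : k)
  have hg : ∀ s : OO (nv k) nv_na ⧸ Ideal.span {((p ^ 2 : ℕ) : OO (nv k) nv_na)},
      Ideal.Quotient.mk (Ideal.span {((p ^ 2 : ℕ) : OO (nv k) nv_na)})
        (Ideal.Quotient.mk_surjective s).choose = s :=
    fun s => (Ideal.Quotient.mk_surjective s).choose_spec
  have hg1 : ∀ s, ‖g s‖ ≤ 1 := fun s => (Ideal.Quotient.mk_surjective s).choose.2
  choose c hc hc2 using fun s => ht (g s) (hg1 s)
  have hinj : Function.Injective (fun s => (⟨c s, hc s⟩ : t)) := by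
    intro s s' h
    have h1 : c s = c s' := congrArg Subtype.val h
    rw [← hg s, ← hg s', Ideal.Quotient.eq, mem_span_iff nv_na _ hq0]
    push_cast
    show ‖g s - g s'‖ ≤ ‖((p : k) ^ 2)‖
    have e : g s - g s' = (g s - c s) - (g s' - c s') := by rw [h1]; ring
    rw [e, norm_pow]
    exact (nsub _ _).trans (max_le (hc2 s) (hc2 s'))
  have hfin : Finite (OO (nv k) nv_na ⧸ Ideal.span {((p ^ 2 : ℕ) : OO (nv k) nv_na)}) :=
    Finite.of_injective _ hinj
  refine ⟨hfin, ?_⟩
  have := Nat.card_le_card_of_injective _ hinj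
  refine this.trans ?_
  rw [Nat.card_eq_fintype_card, Fintype.card_coe]
  exact htN

theorem integral_period_loc [CharZero k] {p N : ℕ} (hp : p.Prime)
    (hwp : ‖(p : k)‖ < 1) (hN : Classes k p N) (G : (OO (nv k) nv_na)[X]) (δ : OO (nv k) nv_na)
    {n : ℕ} [NeZero n]
    (u : ZMod n → OO (nv k) nv_na) (hrec : ∀ t, u (t + 1) + δ * u (t - 1) = G.eval (u t)) :
    ∀ t, u (t + ((uper N : ℕ) : ZMod n)) = u t := by
  classical
  obtain ⟨hfin, hcard⟩ := quot_finite hp hN
  set c := N ^ 2 with hc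
  have hcc : Nat.card (OO (nv k) nv_na ⧸ Ideal.span {((p ^ 2 : ℕ) : OO (nv k) nv_na)}) ^ 2 ≤ c :=
    Nat.pow_le_pow_left hcard 2
  let P : ℕ → Prop := fun j => ∀ t, u (t + ((c.factorial * c.factorial * j : ℕ) : ZMod n)) = u t
  have hn : 0 < n := Nat.pos_of_ne_zero (NeZero.ne n)
  have hex : ∃ j, 0 < j ∧ P j := by
    refine ⟨n, hn, fun t => ?_⟩
    have : ((c.factorial * c.factorial * n : ℕ) : ZMod n) = 0 := by push_cast; simp
    rw [this, add_zero]
  obtain ⟨hj0, hjP⟩ := Nat.find_spec hex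
  set j := Nat.find hex with hj
  have hj1 : j = 1 := by
    by_contra hne
    have hℓ := Nat.minFac_prime hne
    set ℓ := j.minFac
    obtain ⟨i, hi⟩ := Nat.minFac_dvd j
    have hi' : j = ℓ * i := hi
    have hi0 : 0 < i := by
      rcases Nat.eq_zero_or_pos i with h | h
      · rw [h, mul_zero] at hi'; omega
      · exact h
    have hij : i < j := by
      rw [hi']
      calc i = 1 * i := (one_mul i).symm
        _ < ℓ * i := Nat.mul_lt_mul_of_pos_right hℓ.one_lt hi0
    apply Nat.find_min hex hij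
    refine ⟨hi0, ?_⟩
    refine no_prime_shift nv_na hp hwp c hcc G δ u hrec i ℓ hℓ fun t => ?_
    have := hjP t
    rw [hi'] at this
    have e : (ℓ : ZMod n) * ((c.factorial * c.factorial * i : ℕ) : ZMod n) =
        ((c.factorial * c.factorial * (ℓ * i) : ℕ) : ZMod n) := by push_cast; ring
    rw [e]
    exact this
  intro t
  have := hjP t
  rw [hj1, mul_one] at this
  exact this

theorem tame_period_aux [CharZero k] {p N : ℕ} (hp : p.Prime) (hwp : ‖(p : k)‖ < 1)
    (hN : Classes k p N) {F : k[X]} {δ : k} (hδ : ‖δ‖ ≤ 1) (hF : Tame F 1) {n : ℕ} [NeZero n]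
    (y : ZMod n → k) (hrec : ∀ t, y (t + 1) + δ * y (t - 1) = F.eval (y t)) :
    ∀ t, y (t + ((uper N : ℕ) : ZMod n)) = y t := by
  classical
  obtain ⟨⟨s0, t0⟩, h0⟩ := Finite.exists_max fun x : ZMod n × ZMod n => ‖y x.1 - y x.2‖
  have hmax : ∀ s t, ‖y s - y t‖ ≤ ‖y s0 - y t0‖ := fun s t => h0 (s, t)
  set c := y t0 with hc
  set γ := y s0 - c with hγ
  by_cases hγ0 : γ = 0
  · intro t
    have := hmax (t + ((uper N : ℕ) : ZMod n)) t
    rw [hγ0, norm_zero] at this
    exact sub_eq_zero.1 (norm_le_zero_iff.1 this)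
  have hγp : 0 < ‖γ‖ := norm_pos_iff.2 hγ0
  have hu : ∀ t, ‖(y t - c) / γ‖ ≤ 1 := by
    intro t
    rw [norm_div, div_le_one hγp]
    exact hmax t t0
  have hdiff : ‖F.eval (c + γ) - F.eval c‖ ≤ 1 * ‖γ‖ := by
    have e1 : c + γ = y s0 := by rw [hγ]; ring
    have e2 : F.eval (y s0) - F.eval (y t0) =
        (y (s0 + 1) - y (t0 + 1)) + δ * (y (s0 - 1) - y (t0 - 1)) := by
      rw [← hrec, ← hrec]; ring
    rw [e1, hc, e2, one_mul]
    refine (nadd _ _).trans (max_le (hmax _ _) ?_)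
    rw [norm_mul]
    calc ‖δ‖ * ‖y (s0 - 1) - y (t0 - 1)‖ ≤ 1 * ‖γ‖ := by gcongr; exact hmax _ _
      _ = _ := one_mul _
  have hco := hF c γ hγ0 hdiff
  let F' : k[X] := C γ⁻¹ * ((taylor c F).comp (C γ * X) - C ((1 + δ) * c))
  have heval : ∀ x, F'.eval ((x - c) / γ) = (F.eval x - (1 + δ) * c) / γ := by
    intro x
    show (C γ⁻¹ * ((taylor c F).comp (C γ * X) - C ((1 + δ) * c))).eval ((x - c) / γ) = _
    rw [eval_mul, eval_C, Polynomial.eval_sub, eval_C, eval_comp, eval_mul, eval_C, eval_X, taylor_eval,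
      mul_div_cancel₀ _ hγ0, sub_add_cancel, div_eq_inv_mul]
  have hrec' : ∀ t, (y (t + 1) - c) / γ + δ * ((y (t - 1) - c) / γ) = F'.eval ((y t - c) / γ) := by
    intro t
    rw [heval, ← hrec]
    ring
  have hposc : ∀ i, 1 ≤ i → ‖F'.coeff i‖ ≤ 1 := by
    intro i hi
    show ‖(C γ⁻¹ * ((taylor c F).comp (C γ * X) - C ((1 + δ) * c))).coeff i‖ ≤ 1
    rw [coeff_C_mul, coeff_sub, comp_C_mul_X_coeff, coeff_C, if_neg (by omega), sub_zero,
      taylor_coeff, norm_mul, norm_inv, norm_mul, norm_pow, inv_mul_le_iff₀ hγp, mul_one]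
    have h1 := hco i hi
    calc _ = (‖(hasseDeriv i F).eval c‖ * ‖γ‖ ^ (i - 1)) * ‖γ‖ := by
          rw [mul_assoc, ← pow_succ]; congr 2; omega
      _ ≤ 1 * ‖γ‖ := by gcongr
      _ = _ := one_mul _
  have h0c : ‖F'.coeff 0‖ ≤ 1 := by
    have h1 : F'.coeff 0 = F'.eval ((y t0 - c) / γ) := by
      rw [coeff_zero_eq_eval_zero, hc, sub_self, zero_div]
    rw [h1, ← hrec']
    refine (nadd _ _).trans (max_le (hu _) ?_)
    rw [norm_mul]
    exact mul_le_one₀ hδ (norm_nonneg _) (hu _)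
  have hall : (↑F'.coeffs : Set k) ⊆ (OO (nv k) nv_na : Set k) := by
    intro x hx
    rw [Finset.mem_coe, Polynomial.mem_coeffs_iff] at hx
    obtain ⟨i, -, rfl⟩ := hx
    rcases Nat.eq_zero_or_pos i with h | h
    · rw [h]; exact h0c
    · exact hposc i h
  let G : (OO (nv k) nv_na)[X] := F'.toSubring (OO (nv k) nv_na) hall
  have hG : G.map (OO (nv k) nv_na).subtype = F' := Polynomial.map_toSubring _ _ _
  let u : ZMod n → OO (nv k) nv_na := fun t => ⟨(y t - c) / γ, hu t⟩
  have hmain := integral_period_loc hp hwp hN G ⟨δ, hδ⟩ u (by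
    intro t
    apply Subtype.ext
    have e : ((G.eval (u t) : OO (nv k) nv_na) : k) = F'.eval ((y t - c) / γ) := by
      rw [← hG, eval_map]
      exact (Polynomial.eval₂_hom (OO (nv k) nv_na).subtype (u t)).symm
    rw [e]
    exact hrec' t)
  intro t
  have h1 := congrArg (fun x : OO (nv k) nv_na => (x : k)) (hmain t)
  simp only [u] at h1
  rw [div_left_inj' hγ0] at h1
  exact sub_left_injective h1

lemma tame_div {F : k[X]} {δ : k} (hδ : δ ≠ 0) (hF : Tame F ‖δ‖) : Tame (C δ⁻¹ * F) 1 := by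
  have hδp : 0 < ‖δ‖ := norm_pos_iff.2 hδ
  intro c T hT h i hi
  rw [eval_mul, eval_mul, eval_C, eval_C, ← mul_sub, norm_mul, norm_inv, inv_mul_le_iff₀ hδp,
    one_mul] at h
  have h2 := hF c T hT h i hi
  have e : hasseDeriv i (C δ⁻¹ * F) = C δ⁻¹ * hasseDeriv i F := by
    rw [← smul_eq_C_mul, ← smul_eq_C_mul, map_smul]
  rw [e, eval_mul, eval_C, norm_mul, norm_inv, mul_assoc, inv_mul_le_iff₀ hδp, mul_one]
  exact h2

theorem tame_period [CharZero k] {p N : ℕ} (hp : p.Prime) (hwp : ‖(p : k)‖ < 1)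
    (hN : Classes k p N) {F : k[X]} {δ : k} (hF : Tame F (max 1 ‖δ‖)) {n : ℕ} [NeZero n]
    (y : ZMod n → k) (hrec : ∀ t, y (t + 1) + δ * y (t - 1) = F.eval (y t)) :
    ∀ t, y (t + ((uper N : ℕ) : ZMod n)) = y t := by
  rcases le_or_gt ‖δ‖ 1 with hδ | hδ
  · rw [max_eq_left hδ] at hF
    exact tame_period_aux hp hwp hN hδ hF y hrec
  · rw [max_eq_right hδ.le] at hF
    have hδ0 : δ ≠ 0 := by
      rintro rfl
      rw [norm_zero] at hδ
      linarith
    have hδ1 : ‖δ⁻¹‖ ≤ 1 := by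
      rw [norm_inv]
      exact inv_le_one_of_one_le₀ hδ.le
    have key := tame_period_aux hp hwp hN (F := C δ⁻¹ * F) (δ := δ⁻¹) hδ1 (tame_div hδ0 hF)
      (fun t => y (-t)) (fun t => by
        have h1 := hrec (-t)
        rw [eval_mul, eval_C, ← h1]
        have e1 : -(t + 1) = -t - 1 := by ring
        have e2 : -(t - 1) = -t + 1 := by ring
        rw [e1, e2]
        field_simp
        ring)
    intro t
    have h1 := key (-t - ((uper N : ℕ) : ZMod n))
    simp only [sub_add_cancel, neg_neg, neg_sub, sub_neg_eq_add] at h1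
    rw [h1, add_comm]

/-- **The universal period.** -/
theorem tame_points [CharZero k] {p N : ℕ} (hp : p.Prime) (hwp : ‖(p : k)‖ < 1)
    (hN : Classes k p N) {F : k[X]} {δ : k} (hF : Tame F (max 1 ‖δ‖)) {P : k × k} {n : ℕ}
    (hn : 0 < n) (hP : (hen F δ)^[n] P = P) : (hen F δ)^[uper N] P = P := by
  have : NeZero n := ⟨hn.ne'⟩
  have h := tame_period hp hwp hN hF (sq F δ P n) (fun t => sq_rec hP t)
  have h0 := h ((0 : ℕ) : ZMod n)
  have h1 := h ((1 : ℕ) : ZMod n)
  rw [← Nat.cast_add, sq_nat hP, sq_nat hP, zero_add] at h0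
  rw [← Nat.cast_add, sq_nat hP, sq_nat hP, add_comm 1, hen_succ_fst, hen_succ_fst
    (P := P) (i := 0)] at h1
  exact Prod.ext h0 h1

/-- Polynomials with dominated middle coefficients are tame. -/
theorem tame_of_mid {F : k[X]} {δ : k} (hmid : Mid (nv k) F δ) (hd : 2 ≤ F.natDegree)
    (hwd : ‖(F.natDegree : k)‖ = 1) (hpow : Rigid (X ^ F.natDegree : k[X])) :
    Tame F (max 1 ‖δ‖) := by
  intro c T hT h i hi
  set R := max ‖c‖ ‖T‖ with hR
  have hTp : 0 < ‖T‖ := norm_pos_iff.2 hT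
  have hRp : 0 < R := lt_of_lt_of_le hTp (le_max_right _ _)
  have hcT : ‖c + T‖ ≤ R := nadd _ _
  rcases le_or_gt (‖F.leadingCoeff‖ * R ^ (F.natDegree - 1)) (max 1 ‖δ‖) with hM | hM
  · -- all terms are small
    have hcoeff := dom_le (w := nv k) hmid hd hRp.le hM
    rcases le_or_gt i F.natDegree with hid | hid
    swap
    · rw [hasseDeriv_eq_zero_of_lt_natDegree _ _ hid]
      simp
    have e : (hasseDeriv i F).eval c = ∑ j ∈ Finset.range (F.natDegree + 1),
        (j.choose i : k) * F.coeff j * c ^ (j - i) := by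
      rw [hasseDeriv_apply, Polynomial.sum_def]
      rw [eval_finset_sum]
      rw [Finset.sum_subset (s₂ := Finset.range (F.natDegree + 1)) supp_subset_range_natDegree_succ]
      · exact Finset.sum_congr rfl fun j _ => by rw [eval_monomial]
      · intro j _ hj
        rw [notMem_support_iff.1 hj]
        simp
    rw [e]
    have hsum : ‖∑ j ∈ Finset.range (F.natDegree + 1), (j.choose i : k) * F.coeff j * c ^ (j - i)‖ ≤
        max 1 ‖δ‖ / ‖T‖ ^ (i - 1) := by
      refine nsum _ _ (by positivity) fun j hj => ?_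
      rw [Finset.mem_range] at hj
      rw [le_div_iff₀ (by positivity)]
      rcases lt_or_ge j i with hji | hji
      · rw [Nat.choose_eq_zero_of_lt hji]
        simp
      · have h1 := hcoeff j (by omega) (by omega)
        rw [norm_mul, norm_mul, norm_pow]
        calc _ ≤ 1 * ‖F.coeff j‖ * R ^ (j - i) * R ^ (i - 1) := by
              gcongr
              · exact norm_nat_le _
              · exact le_max_left _ _
              · exact le_max_right _ _
          _ = ‖F.coeff j‖ * R ^ (j - 1) := by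
              rw [one_mul, mul_assoc, ← pow_add]; congr 2; omega
          _ ≤ max 1 ‖δ‖ := h1
    rwa [le_div_iff₀ (by positivity)] at hsum
  · exfalso
    have h1 : ‖c‖ ^ (F.natDegree - 1) * ‖T‖ ≤ ‖(c + T) ^ F.natDegree - c ^ F.natDegree‖ := by
      have := hpow c T 1 le_rfl
      rw [hasse_pow, Nat.choose_one_right, norm_mul, hwd, one_mul, norm_pow, pow_one, eval_pow,
        eval_pow, eval_X, eval_X] at this
      exact this
    have h2 : ‖T‖ ^ (F.natDegree - 1) * ‖T‖ ≤ ‖(c + T) ^ F.natDegree - c ^ F.natDegree‖ := by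
      have := hpow c T F.natDegree (by omega)
      rw [hasse_pow, Nat.choose_self, Nat.cast_one, one_mul, Nat.sub_self, pow_zero, norm_one,
        one_mul, eval_pow, eval_pow, eval_X, eval_X] at this
      rw [← pow_succ, show F.natDegree - 1 + 1 = F.natDegree by omega]
      exact this
    have h3 : R ^ (F.natDegree - 1) * ‖T‖ ≤ ‖(c + T) ^ F.natDegree - c ^ F.natDegree‖ := by
      rcases le_total ‖c‖ ‖T‖ with h | h
      · rw [hR, max_eq_right h]; exact h2
      · rw [hR, max_eq_left h]; exact h1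
    have h4 := rest_lt (w := nv k) nv_na hmid hRp hM (x := c + T) (y := c) hcT (le_max_left _ _)
      hTp (by rw [nv_apply]; simp)
    simp only [nv_apply] at h4
    have hA : 0 < ‖F.leadingCoeff‖ := by
      rcases (norm_nonneg F.leadingCoeff).lt_or_eq with h | h
      · exact h
      · rw [← h, zero_mul] at hM
        have : (1 : ℝ) ≤ max 1 ‖δ‖ := le_max_left _ _
        linarith
    have h5 : ‖F.leadingCoeff‖ * R ^ (F.natDegree - 1) * ‖T‖ ≤
        ‖F.leadingCoeff * ((c + T) ^ F.natDegree - c ^ F.natDegree)‖ := by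
      rw [norm_mul, mul_assoc]
      gcongr
    have h6 : ‖F.leadingCoeff * ((c + T) ^ F.natDegree - c ^ F.natDegree)‖ ≤
        max ‖F.eval (c + T) - F.eval c‖ ‖F.eval (c + T) - F.eval c -
          F.leadingCoeff * ((c + T) ^ F.natDegree - c ^ F.natDegree)‖ := by
      have e : F.leadingCoeff * ((c + T) ^ F.natDegree - c ^ F.natDegree) =
          (F.eval (c + T) - F.eval c) - (F.eval (c + T) - F.eval c -
            F.leadingCoeff * ((c + T) ^ F.natDegree - c ^ F.natDegree)) := by ring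
      conv_lhs => rw [e]
      exact nsub _ _
    have h7 : max 1 ‖δ‖ * ‖T‖ < ‖F.leadingCoeff‖ * R ^ (F.natDegree - 1) * ‖T‖ := by gcongr
    have h8 := max_lt (h.trans_lt h7) h4
    exact absurd (h5.trans h6) (not_le.2 h8)

end Pool.Agent.H16.LF
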