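import Pool.Agent.H16.LF.Hens

/-!
# Rigid polynomials over nonarchimedean fields
-/

set_option autoImplicit false

namespace Pool.Agent.H16.LF

open Polynomial

variable {k : Type*} [NormedField k] [IsUltrametricDist k]

/-- Every difference `F (c + T) - F c` is as large as the largest term of the Taylor expansion. -/
def Rigid (F : k[X]) : Prop :=
  ∀ (c T : k) (i : ℕ), 1 ≤ i → ‖(hasseDeriv i F).eval c‖ * ‖T‖ ^ i ≤ ‖F.eval (c + T) - F.eval c‖

/-- If `F (c + T) - F c` has at most `Δ` times the size of `T`, so have all the terms of the Taylor expansion. -/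
def Tame (F : k[X]) (Δ : ℝ) : Prop :=
  ∀ c T : k, T ≠ 0 → ‖F.eval (c + T) - F.eval c‖ ≤ Δ * ‖T‖ →
    ∀ i : ℕ, 1 ≤ i → ‖(hasseDeriv i F).eval c‖ * ‖T‖ ^ (i - 1) ≤ Δ

lemma Rigid.tame {F : k[X]} (h : Rigid F) (Δ : ℝ) : Tame F Δ := by
  intro c T hT h1 i hi
  have hT0 : 0 < ‖T‖ := norm_pos_iff.2 hT
  have h2 := (h c T i hi).trans h1
  have e : ‖T‖ ^ i = ‖T‖ ^ (i - 1) * ‖T‖ := by rw [← pow_succ]; congr 1; omega
  rw [e, ← mul_assoc] at h2
  exact le_of_mul_le_mul_right h2 hT0

/-- bound for the Gauss norm -/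
def GB (P : k[X]) (r N : ℝ) : Prop := ∀ i, ‖P.coeff i‖ * r ^ i ≤ N

lemma GB.mul {P Q : k[X]} {r A B : ℝ} (hr : 0 ≤ r) (hP : GB P r A) (hQ : GB Q r B) :
    GB (P * Q) r (A * B) := by
  intro i
  rw [coeff_mul]
  obtain ⟨⟨a, b⟩, hab, h⟩ := IsUltrametricDist.exists_norm_finset_sum_le (Finset.HasAntidiagonal.antidiagonal i)
    (fun x : ℕ × ℕ => P.coeff x.1 * Q.coeff x.2)
  have hab' : (a, b) ∈ Finset.HasAntidiagonal.antidiagonal i := hab ⟨(0, i), by simp⟩
  rw [Finset.HasAntidiagonal.mem_antidiagonal] at hab'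
  simp only at h hab'
  have hA : 0 ≤ ‖P.coeff a‖ * r ^ a := by positivity
  have hB : 0 ≤ ‖Q.coeff b‖ * r ^ b := by positivity
  calc _ ≤ ‖P.coeff a * Q.coeff b‖ * r ^ i := by gcongr
    _ = (‖P.coeff a‖ * r ^ a) * (‖Q.coeff b‖ * r ^ b) := by
        rw [norm_mul, ← hab', pow_add]; ring
    _ ≤ A * B := mul_le_mul (hP a) (hQ b) hB (hA.trans (hP a))

lemma GB.pow {P : k[X]} {r A : ℝ} (hr : 0 ≤ r) (hP : GB P r A) (j : ℕ) :
    GB (P ^ j) r (A ^ j) := by
  induction j with
  | zero =>
    intro i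
    rw [pow_zero, coeff_one, pow_zero]
    split_ifs with h
    · subst h; simp
    · simp
  | succ j ih =>
    rw [pow_succ, pow_succ]
    exact ih.mul hr hP

lemma Rigid.comp {F G : k[X]} (hF : Rigid F) (hG : Rigid G) : Rigid (F.comp G) := by
  intro c T i hi
  set b := G.eval c with hb
  set S := G.eval (c + T) - G.eval c with hS
  have e1 : (F.comp G).eval (c + T) - (F.comp G).eval c = F.eval (b + S) - F.eval b := by
    rw [eval_comp, eval_comp]
    congr 2
    rw [hS, ← hb]; ring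
  rw [e1]
  -- the Taylor polynomial
  set H : k[X] := taylor c G - C b with hH
  have hH0 : ∀ j, ‖H.coeff j‖ * ‖T‖ ^ j ≤ ‖S‖ := by
    intro j
    rcases Nat.eq_zero_or_pos j with h | h
    · subst h
      rw [hH, coeff_sub, taylor_coeff_zero, coeff_C_zero, ← hb, sub_self, norm_zero, zero_mul]
      exact norm_nonneg _
    · rw [hH, coeff_sub, taylor_coeff, coeff_C, if_neg (by omega), sub_zero]
      exact hG c T j h
  have e2 : taylor c (F.comp G) = (taylor b F).comp H := by
    rw [taylor_apply, taylor_apply, hH, taylor_apply, comp_assoc, comp_assoc]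
    congr 1
    simp
  rw [← taylor_coeff, e2, comp_eq_sum_left, Polynomial.sum, finset_sum_coeff]
  rcases (taylor b F).support.eq_empty_or_nonempty with hne | hne
  · rw [hne]; simp
  obtain ⟨j, hj, h⟩ := IsUltrametricDist.exists_norm_finset_sum_le ((taylor b F).support)
    (fun j => (C ((taylor b F).coeff j) * H ^ j).coeff i)
  refine (mul_le_mul_of_nonneg_right h (by positivity)).trans ?_
  rw [coeff_C_mul, norm_mul]
  rcases Nat.eq_zero_or_pos j with h0 | h0
  · subst h0
    rw [pow_zero, coeff_one, if_neg (by omega)]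
    simp
  · have h3 := GB.pow (norm_nonneg T) hH0 j i
    have h4 := hF b S j h0
    rw [taylor_coeff]
    calc _ = ‖(hasseDeriv j F).eval b‖ * (‖(H ^ j).coeff i‖ * ‖T‖ ^ i) := by ring
      _ ≤ ‖(hasseDeriv j F).eval b‖ * ‖S‖ ^ j := by gcongr
      _ ≤ _ := h4

lemma rigid_affine (a b : k) : Rigid (C a * X + C b) := by
  intro c T i hi
  have e : (C a * X + C b : k[X]).eval (c + T) - (C a * X + C b : k[X]).eval c = a * T := by
    simp; ring
  rw [e, norm_mul]
  rcases hi.lt_or_eq with h | h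
  · have : hasseDeriv i (C a * X + C b : k[X]) = 0 := by
      apply hasseDeriv_eq_zero_of_lt_natDegree
      exact lt_of_le_of_lt natDegree_linear_le h
    rw [this]
    simp
    positivity
  · subst h
    rw [hasseDeriv_one]
    simp

lemma rigid_X : Rigid (X : k[X]) := by
  have := rigid_affine (1 : k) 0
  simpa using this

lemma hasse_pow (d i : ℕ) (c : k) :
    (hasseDeriv i (X ^ d : k[X])).eval c = (d.choose i : k) * c ^ (d - i) := by
  rw [← monomial_one_right_eq_X_pow, hasseDeriv_monomial, eval_monomial, mul_one]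

lemma norm_nat_le (n : ℕ) : ‖(n : k)‖ ≤ 1 := IsUltrametricDist.norm_natCast_le_one k n

variable [CompleteSpace k]

theorem unit_case {l : ℕ} (hl : l.Prime) (hl0 : (l : k) ≠ 0) (hroot : ∀ x : k, x ^ l = 1 → x = 1)
    {T : k} (hT : ‖T‖ ≤ 1) (i : ℕ) (hi : 1 ≤ i) :
    ‖(l.choose i : k)‖ * ‖T‖ ^ i ≤ ‖(1 + T) ^ l - 1‖ := by
  by_contra hcon
  push Not at hcon
  have hT0 : T ≠ 0 := by
    rintro rfl
    rw [norm_zero, zero_pow (by omega), mul_zero] at hcon
    exact absurd hcon (not_lt.2 (norm_nonneg _))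
  have hTp : 0 < ‖T‖ := norm_pos_iff.2 hT0
  have hlp : 0 < ‖(l : k)‖ := norm_pos_iff.2 hl0
  have hchoose : ∀ j, 1 ≤ j → j < l → ‖(l.choose j : k)‖ ≤ ‖(l : k)‖ := by
    intro j h1 h2
    obtain ⟨m, hm⟩ := hl.dvd_choose_self (by omega) h2
    rw [hm]
    push_cast
    rw [norm_mul]
    calc _ ≤ ‖(l : k)‖ * 1 := by gcongr; exact norm_nat_le m
      _ = _ := mul_one _
  have hN : ‖(l.choose i : k)‖ * ‖T‖ ^ i ≤ max (‖(l : k)‖ * ‖T‖) (‖T‖ ^ l) := by
    rcases lt_trichotomy i l with h | h | h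
    · refine le_max_of_le_left ?_
      gcongr
      · exact hchoose i hi h
      · calc ‖T‖ ^ i ≤ ‖T‖ ^ 1 := pow_le_pow_of_le_one (norm_nonneg _) hT hi
          _ = ‖T‖ := pow_one _
    · subst h
      rw [Nat.choose_self]
      simp
    · rw [Nat.choose_eq_zero_of_lt h]
      simp
  have hlt := hcon.trans_le hN
  -- expansion
  have hexp : (1 + T) ^ l - 1 = T ^ l + ∑ j ∈ Finset.Ico 1 l, T ^ j * (l.choose j : k) := by
    rw [add_comm 1 T, add_pow, Finset.sum_range_succ, Finset.range_eq_Ico,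
      Finset.sum_eq_sum_Ico_succ_bot hl.pos]
    simp
    ring
  have hB : ‖∑ j ∈ Finset.Ico 1 l, T ^ j * (l.choose j : k)‖ ≤ ‖(l : k)‖ * ‖T‖ := by
    refine nsum _ _ (by positivity) fun j hj => ?_
    rw [Finset.mem_Ico] at hj
    rw [norm_mul, norm_pow, mul_comm]
    gcongr
    · exact hchoose j hj.1 hj.2
    · calc ‖T‖ ^ j ≤ ‖T‖ ^ 1 := pow_le_pow_of_le_one (norm_nonneg _) hT hj.1
        _ = ‖T‖ := pow_one _
  rcases lt_or_ge (‖(l : k)‖ * ‖T‖) (‖T‖ ^ l) with hcase | hcase
  · have h1 : ‖(1 + T) ^ l - 1‖ = ‖T‖ ^ l := by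
      rw [hexp, IsUltrametricDist.norm_add_eq_max_of_norm_ne_norm, norm_pow, max_eq_left]
      · exact hB.trans hcase.le
      · rw [norm_pow]
        exact (lt_of_le_of_lt hB hcase).ne'
    rw [h1, max_eq_right hcase.le] at hlt
    exact lt_irrefl _ hlt
  · rw [max_eq_left hcase] at hlt
    have hle1 : ‖(l : k)‖ * ‖T‖ ≤ 1 := mul_le_one₀ (norm_nat_le l) (norm_nonneg _) hT
    have h1T : ‖1 + T‖ = 1 := by
      have h2 : ‖1 + T‖ ≤ 1 := (nadd _ _).trans (max_le (by rw [norm_one]) hT)
      refine le_antisymm h2 ?_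
      by_contra h3
      push Not at h3
      have h4 : ‖(1 + T) ^ l‖ < 1 := by
        rw [norm_pow]
        exact pow_lt_one₀ (norm_nonneg _) h3 hl.ne_zero
      have h5 : ‖(1 + T) ^ l - 1‖ = 1 := by
        rw [sub_eq_add_neg, IsUltrametricDist.norm_add_eq_max_of_norm_ne_norm, norm_neg, norm_one,
          max_eq_right h4.le]
        rw [norm_neg, norm_one]
        exact h4.ne
      rw [h5] at hlt
      exact absurd hle1 (not_le.2 hlt)
    let G : k[X] := C ((l : k) * T)⁻¹ * (((1 + X) ^ l - 1 : k[X]).comp (C T * X))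
    have hG : Integral G := by
      intro j
      rw [coeff_C_mul, comp_C_mul_X_coeff, coeff_sub, coeff_one_add_X_pow, coeff_one]
      rcases Nat.eq_zero_or_pos j with h | h
      · subst h
        simp
      rw [if_neg (by omega), sub_zero, norm_mul, norm_inv, norm_mul, norm_mul, norm_pow]
      rw [inv_mul_le_iff₀ (by positivity), mul_one]
      rcases lt_trichotomy j l with h2 | h2 | h2
      · gcongr
        · exact hchoose j h h2
        · calc ‖T‖ ^ j ≤ ‖T‖ ^ 1 := pow_le_pow_of_le_one (norm_nonneg _) hT h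
            _ = ‖T‖ := pow_one _
      · subst h2
        rw [Nat.choose_self, Nat.cast_one, norm_one, one_mul]
        exact hcase
      · rw [Nat.choose_eq_zero_of_lt h2]
        simp
        positivity
    have hev : ∀ y : k, G.eval y = ((l : k) * T)⁻¹ * ((1 + T * y) ^ l - 1) := by
      intro y
      simp [G, eval_comp]
    have hder : (derivative G).eval 1 = (1 + T) ^ (l - 1) := by
      have : derivative G = C ((l : k) * T)⁻¹ *
          (C T * ((C (l : k) * (1 + X) ^ (l - 1)).comp (C T * X))) := by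
        simp only [G]
        rw [derivative_C_mul, derivative_comp]
        congr 1
        simp [derivative_pow]
      rw [this]
      simp [eval_comp]
      field_simp
    obtain ⟨y, hy1, hy2⟩ := hensel hG (s := 1) (by rw [norm_one]) (by
      rw [hev, mul_one, norm_mul, norm_inv, norm_mul, inv_mul_lt_iff₀ (by positivity), mul_one]
      exact hlt) (by rw [hder, norm_pow, h1T, one_pow])
    rw [hev, mul_eq_zero] at hy2
    rcases hy2 with h2 | h2
    · exact absurd h2 (inv_ne_zero (mul_ne_zero hl0 hT0))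
    · have h3 := hroot _ (sub_eq_zero.1 h2)
      have h4 : T * y = 0 := by linear_combination h3
      have h5 : y = 0 := (mul_eq_zero.1 h4).resolve_left hT0
      rw [h5, zero_sub, norm_neg, norm_one] at hy1
      exact lt_irrefl _ hy1

theorem rigid_prime {l : ℕ} (hl : l.Prime) (hl0 : (l : k) ≠ 0)
    (hroot : ∀ x : k, x ^ l = 1 → x = 1) : Rigid (X ^ l : k[X]) := by
  intro c T i hi
  rw [hasse_pow, eval_pow, eval_pow, eval_X, eval_X, norm_mul, norm_pow]
  rcases le_or_gt ‖T‖ ‖c‖ with h | h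
  · rcases eq_or_ne c 0 with hc | hc
    · subst hc
      have hT : T = 0 := by
        rw [norm_zero] at h
        exact norm_le_zero_iff.1 h
      subst hT
      simp [show i ≠ 0 by omega]
    · have hcp : 0 < ‖c‖ := norm_pos_iff.2 hc
      rcases le_or_gt i l with hil | hil
      swap
      · rw [Nat.choose_eq_zero_of_lt hil]
        simp
      have h1 := unit_case hl hl0 hroot (T := T / c) (by
        rw [norm_div, div_le_one hcp]; exact h) i hi
      have e1 : (c + T) ^ l - c ^ l = c ^ l * ((1 + T / c) ^ l - 1) := by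
        rw [mul_sub, ← mul_pow, mul_one]
        congr 2
        field_simp
      rw [e1, norm_mul, norm_pow]
      calc _ = ‖c‖ ^ l * (‖(l.choose i : k)‖ * ‖T / c‖ ^ i) := by
            rw [norm_div, div_pow]
            have : ‖c‖ ^ l = ‖c‖ ^ (l - i) * ‖c‖ ^ i := by rw [← pow_add]; congr 1; omega
            rw [this]
            field_simp
        _ ≤ _ := by gcongr
  · have hTp : 0 < ‖T‖ := lt_of_le_of_lt (norm_nonneg _) h
    have h1 : ‖c + T‖ = ‖T‖ := by
      rw [IsUltrametricDist.norm_add_eq_max_of_norm_ne_norm h.ne, max_eq_right h.le]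
    have h2 : ‖(c + T) ^ l - c ^ l‖ = ‖T‖ ^ l := by
      have h3 : ‖c ^ l‖ < ‖(c + T) ^ l‖ := by
        rw [norm_pow, norm_pow, h1]
        exact pow_lt_pow_left₀ h (norm_nonneg _) hl.ne_zero
      rw [sub_eq_add_neg, IsUltrametricDist.norm_add_eq_max_of_norm_ne_norm, norm_neg,
        max_eq_left h3.le, norm_pow, h1]
      rw [norm_neg]
      exact h3.ne'
    rw [h2]
    rcases le_or_gt i l with hil | hil
    · calc _ ≤ 1 * ‖T‖ ^ (l - i) * ‖T‖ ^ i := by
            gcongr
            exact norm_nat_le _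
        _ = ‖T‖ ^ l := by rw [one_mul, ← pow_add]; congr 1; omega
    · rw [Nat.choose_eq_zero_of_lt hil]
      simp

theorem rigid_pow [CharZero k] (d : ℕ) (hd : d ≠ 0) (hroot : ∀ x : k, x ^ d = 1 → x = 1) :
    Rigid (X ^ d : k[X]) := by
  revert hd hroot
  refine induction_on_primes (motive := fun d => d ≠ 0 → (∀ x : k, x ^ d = 1 → x = 1) →
    Rigid (X ^ d : k[X])) ?_ ?_ ?_ d
  · intro h; exact absurd rfl h
  · intro _ _; simpa using rigid_X
  · intro l a hl ih hd hroot
    have h1 : Rigid (X ^ l : k[X]) := rigid_prime hl (by exact_mod_cast hl.ne_zero) fun x hx =>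
      hroot x (by rw [pow_mul, hx, one_pow])
    have h2 : Rigid (X ^ a : k[X]) := ih (by rintro rfl; simp at hd) fun x hx =>
      hroot x (by rw [mul_comm, pow_mul, hx, one_pow])
    have e : (X ^ (l * a) : k[X]) = (X ^ l : k[X]).comp (X ^ a) := by
      rw [X_pow_comp, ← pow_mul, mul_comm]
    rw [e]
    exact h1.comp h2

end Pool.Agent.H16.LF
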